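import Mathlib

set_option autoImplicit false

namespace Pool.Agent.H.MP_666b32_lc

open Polynomial Finset

def Bd (P : ℤ[X]) (B : ℕ) : Prop :=
  ∃ U W : ℕ[X], P = U.map (Nat.castRingHom ℤ) - W.map (Nat.castRingHom ℤ) ∧ U.eval 1 + W.eval 1 ≤ B

theorem Bd.mono {P : ℤ[X]} {B B' : ℕ} (h : Bd P B) (e : B ≤ B') : Bd P B' := by
  obtain ⟨U, W, h1, h2⟩ := h
  exact ⟨U, W, h1, h2.trans e⟩

theorem Bd.add {P Q : ℤ[X]} {B B' : ℕ} (h : Bd P B) (h' : Bd Q B') : Bd (P + Q) (B + B') := by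
  obtain ⟨U, W, rfl, h2⟩ := h
  obtain ⟨U', W', rfl, h2'⟩ := h'
  refine ⟨U + U', W + W', by simp only [Polynomial.map_add]; ring, ?_⟩
  simp only [eval_add]; omega

theorem Bd.neg {P : ℤ[X]} {B : ℕ} (h : Bd P B) : Bd (-P) B := by
  obtain ⟨U, W, rfl, h2⟩ := h
  exact ⟨W, U, by ring, by omega⟩

theorem Bd.sub {P Q : ℤ[X]} {B B' : ℕ} (h : Bd P B) (h' : Bd Q B') : Bd (P - Q) (B + B') := by
  rw [sub_eq_add_neg]; exact h.add h'.neg

theorem Bd.mul {P Q : ℤ[X]} {B B' : ℕ} (h : Bd P B) (h' : Bd Q B') : Bd (P * Q) (B * B') := by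
  obtain ⟨U, W, rfl, h2⟩ := h
  obtain ⟨U', W', rfl, h2'⟩ := h'
  refine ⟨U * U' + W * W', U * W' + W * U', by
    simp only [Polynomial.map_add, Polynomial.map_mul]; ring, ?_⟩
  simp only [eval_add, eval_mul]
  nlinarith [Nat.mul_le_mul h2 h2']

theorem Bd.C (z : ℤ) : Bd (C z) z.natAbs := by
  rcases Int.natAbs_eq z with h | h
  · exact ⟨Polynomial.C z.natAbs, 0, by rw [map_C, Polynomial.map_zero, sub_zero, eq_natCast, ← h],
      by simp⟩
  · refine ⟨0, Polynomial.C z.natAbs, ?_, by simp⟩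
    rw [map_C, Polynomial.map_zero, zero_sub, eq_natCast, ← C_neg, ← h]

theorem Bd.X : Bd X 1 := ⟨Polynomial.X, 0, by simp, by simp⟩

theorem Bd.one : Bd 1 1 := ⟨1, 0, by simp, by simp⟩

theorem Bd.sum {ι : Type} (s : Finset ι) (f : ι → ℤ[X]) (B : ℕ) (h : ∀ i ∈ s, Bd (f i) B) :
    Bd (∑ i ∈ s, f i) (s.card * B) := by
  classical
  induction s using Finset.induction_on with
  | empty => exact ⟨0, 0, by simp, by simp⟩
  | insert a s ha ih =>
    rw [sum_insert ha, card_insert_of_notMem ha]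
    exact ((h a (mem_insert_self _ _)).add
      (ih fun i hi => h i (mem_insert_of_mem hi))).mono (by ring_nf; rfl)

theorem Bd.prod {ι : Type} (s : Finset ι) (f : ι → ℤ[X]) (B : ℕ) (h : ∀ i ∈ s, Bd (f i) B) :
    Bd (∏ i ∈ s, f i) (B ^ s.card) := by
  classical
  induction s using Finset.induction_on with
  | empty => simpa using Bd.one
  | insert a s ha ih =>
    rw [prod_insert ha, card_insert_of_notMem ha, pow_succ']
    exact (h a (mem_insert_self _ _)).mul (ih fun i hi => h i (mem_insert_of_mem hi))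

theorem Bd.pow {P : ℤ[X]} {B : ℕ} (h : Bd P B) (j : ℕ) : Bd (P ^ j) (B ^ j) := by
  simpa using Bd.prod (range j) (fun _ => P) B fun _ _ => h

theorem coeff_le_eval (U : ℕ[X]) (i : ℕ) : U.coeff i ≤ U.eval 1 := by
  by_cases h : i ∈ U.support
  · rw [eval_eq_sum, Polynomial.sum]
    simpa using single_le_sum (f := fun j => U.coeff j * 1 ^ j) (fun _ _ => Nat.zero_le _) h
  · simp [notMem_support_iff.1 h]

theorem Bd.eq_zero {P : ℤ[X]} {B L : ℕ} (h : Bd P B) (hL : B < L) (h0 : P.eval (L : ℤ) = 0) :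
    P = 0 := by
  by_contra hP
  obtain ⟨Q, hQ⟩ := dvd_iff_isRoot.2 h0
  have hQ0 : Q ≠ 0 := by rintro rfl; simp at hQ; exact hP hQ
  have h1 : (Polynomial.X - Polynomial.C (L : ℤ)).trailingCoeff = -(L : ℤ) := by
    rw [trailingCoeff_eq_coeff_zero] <;> simp
    omega
  have h2 := congrArg trailingCoeff hQ
  rw [trailingCoeff_mul, h1] at h2
  have h3 : Q.trailingCoeff ≠ 0 := trailingCoeff_nonzero_iff_nonzero.2 hQ0
  obtain ⟨U, W, hU, h4⟩ := h
  have h5 : P.trailingCoeff = (U.coeff P.natTrailingDegree : ℤ) - W.coeff P.natTrailingDegree := by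
    rw [trailingCoeff]; nth_rewrite 1 [hU]; simp
  have h6 := coeff_le_eval U P.natTrailingDegree
  have h7 := coeff_le_eval W P.natTrailingDegree
  have h8 : (L : ℤ) ≤ |P.trailingCoeff| := by
    rw [h2, abs_mul, abs_neg, Nat.abs_cast]
    nlinarith [Int.one_le_abs h3]
  rw [h5] at h8
  rcases abs_cases ((U.coeff P.natTrailingDegree : ℤ) - W.coeff P.natTrailingDegree) with h | h <;>
    omega

theorem Bd.det {ι : Type} [Fintype ι] [DecidableEq ι] (A : Matrix ι ι ℤ[X]) (B : ℕ)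
    (h : ∀ i j, Bd (A i j) B) : Bd A.det ((Fintype.card ι * B) ^ Fintype.card ι) := by
  rw [Matrix.det_apply]
  refine (Bd.sum _ _ (B ^ Fintype.card ι) fun σ _ => ?_).mono ?_
  · have := Bd.prod univ (fun i => A (σ i) i) B fun i _ => h _ _
    rcases Int.units_eq_one_or (Equiv.Perm.sign σ) with e | e <;> rw [e]
    · simpa using this
    · simpa using this.neg
  · rw [card_univ, Fintype.card_perm, mul_pow]
    exact Nat.mul_le_mul_right _ (Nat.factorial_le_pow _)

theorem orbit_struct {α : Type} [Fintype α] (v : α → ℝ) (hv : Function.Injective v) (g : ℝ → ℝ)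
    (x0 : ℝ) (hN : 0 < Fintype.card α)
    (h : Set.range v = {y | ∃ i < Fintype.card α, g^[i] x0 = y}) :
    ∃ (last : α) (σ : α → α), (∀ s, s ≠ last → v (σ s) = g (v s)) ∧
      (∀ s t, s ≠ last → t ≠ last → σ s = σ t → s = t) ∧
      ∀ T : Set α, T.Nonempty → (∀ s ∈ T, s ≠ last → σ s ∈ T) → last ∈ T := by
  obtain ⟨n, hn⟩ : ∃ n, Fintype.card α = n + 1 := ⟨_, (Nat.succ_pred_eq_of_pos hN).symm⟩
  rw [hn] at h
  have h1 : ∀ i : Fin (n + 1), ∃ s, v s = g^[i] x0 := fun i => by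
    have : g^[i] x0 ∈ Set.range v := by rw [h]; exact ⟨i, i.2, rfl⟩
    exact this
  choose y hy using h1
  have hs : Function.Surjective y := fun s => by
    obtain ⟨i, hi, e⟩ : v s ∈ {y | ∃ i < n + 1, g^[i] x0 = y} := h ▸ ⟨s, rfl⟩
    exact ⟨⟨i, hi⟩, hv ((hy _).trans e)⟩
  have hb : Function.Bijective y :=
    (Fintype.bijective_iff_surjective_and_card y).2 ⟨hs, by simp [hn]⟩
  set e := Equiv.ofBijective y hb
  have key : ∀ i : Fin n, y (e.symm (y i.castSucc) + 1) = y i.succ := fun i => by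
    rw [show e.symm (y i.castSucc) = i.castSucc from e.symm_apply_apply _, Fin.coeSucc_eq_succ]
  have ex : ∀ s, s ≠ y (Fin.last n) → ∃ i : Fin n, s = y i.castSucc := fun s hs' => by
    obtain ⟨i, rfl⟩ := hs s
    obtain ⟨j, rfl⟩ := Fin.exists_castSucc_eq.2 (fun h : i = Fin.last n => hs' (h ▸ rfl))
    exact ⟨j, rfl⟩
  refine ⟨y (Fin.last n), fun s => y (e.symm s + 1), fun s hs' => ?_, fun s t h1 h2 h3 => ?_,
    fun T ⟨s, hT⟩ hc => ?_⟩
  · obtain ⟨i, rfl⟩ := ex s hs'
    simp only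
    rw [key, hy, hy, Fin.val_succ, Function.iterate_succ_apply']; rfl
  · exact e.symm.injective (add_right_cancel (hb.1 h3))
  · obtain ⟨i, rfl⟩ := hs s
    have : ∀ k : Fin (n + 1), i ≤ k → y k ∈ T := by
      intro k
      induction k using Fin.induction with
      | zero => intro h; rwa [← Fin.le_zero_iff.1 h]
      | succ k ih =>
        intro h
        rcases h.eq_or_lt with h | h
        · rwa [← h]
        · have := hc _ (ih (Fin.le_castSucc_iff.2 h))
            (fun h => (Fin.castSucc_lt_last k).ne (hb.1 h))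
          simpa only [key] using this
    exact this _ (Fin.le_last _)

theorem orbit_of_rank {α β : Type} [Fintype α] [Preorder β] (v : α → ℝ)
    (hv : Function.Injective v) (g : ℝ → ℝ) (st : α) (r : α → β)
    (h : ∀ s, s ≠ st → ∃ t, v s = g (v t) ∧ r t < r s) :
    Set.range v = {y | ∃ i < Fintype.card α, g^[i] (v st) = y} := by
  classical
  have h1 : ∀ m s, (univ.filter fun t => r t < r s).card = m → ∃ i ≤ m, g^[i] (v st) = v s := by
    intro m
    induction m using Nat.strong_induction_on with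
    | _ m ih =>
      intro s hs
      by_cases e : s = st
      · exact ⟨0, Nat.zero_le _, by simp [e]⟩
      obtain ⟨t, h2, h3⟩ := h s e
      have h4 : (univ.filter fun u => r u < r t).card < m := by
        rw [← hs]
        refine card_lt_card ⟨fun u hu => ?_, fun hc => ?_⟩
        · simp only [mem_filter, mem_univ, true_and] at hu ⊢; exact hu.trans h3
        · have := hc (mem_filter.2 ⟨mem_univ t, h3⟩)
          simp at this
      obtain ⟨i, hi, h5⟩ := ih _ h4 t rfl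
      exact ⟨i + 1, by omega, by rw [Function.iterate_succ_apply', h5, h2]⟩
  have h2 : {y | ∃ i < Fintype.card α, g^[i] (v st) = y} =
      (((range (Fintype.card α)).image fun i => g^[i] (v st) : Finset ℝ) : Set ℝ) := by
    ext y; simp
  refine Set.eq_of_subset_of_ncard_le ?_ ?_ (h2 ▸ Finset.finite_toSet _)
  · rintro _ ⟨s, rfl⟩
    obtain ⟨i, hi, h3⟩ := h1 _ s rfl
    refine ⟨i, hi.trans_lt ?_, h3⟩
    rw [← card_univ]
    exact card_lt_card ⟨subset_univ _, fun hc => by simpa using hc (mem_univ s)⟩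
  · rw [h2, Set.ncard_coe_finset, Set.ncard_range_of_injective hv, Nat.card_eq_fintype_card]
    exact card_image_le.trans (by simp)

def sg (b : Bool) : ℤ := if b then -1 else 1

def wv (a : Bool × ℕ) : ℤ := sg a.1 * 4 ^ a.2

def ng (a : Bool × ℕ) : Bool × ℕ := (!a.1, a.2)

theorem wv_ng (a : Bool × ℕ) : wv (ng a) = -wv a := by
  obtain ⟨b, i⟩ := a
  cases b <;> simp [wv, ng, sg]

theorem wv_inj : Function.Injective wv := by
  rintro ⟨b, i⟩ ⟨c, j⟩ h
  have h1 : (0 : ℤ) < 4 ^ i := by positivity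
  have h2 : (0 : ℤ) < 4 ^ j := by positivity
  cases b <;> cases c <;> simp [wv, sg] at h ⊢
  · exact h
  · linarith
  · linarith
  · exact h

theorem dom (a b : Bool × ℕ) (h : b.2 ≤ a.2) (h0 : wv a + wv b ≠ 0) :
    3 * 4 ^ a.2 ≤ 4 * (sg a.1 * (wv a + wv b)) ∧ sg a.1 * (wv a + wv b) ≤ 2 * 4 ^ a.2 := by
  obtain ⟨s, i⟩ := a
  obtain ⟨t, j⟩ := b
  have h2 : (0 : ℤ) < 4 ^ j := by positivity
  rcases h.eq_or_lt with h | h
  · simp only at h
    subst h
    cases s <;> cases t <;> simp [wv, sg] at h0 ⊢ <;> constructor <;> linarith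
  · have : (4 : ℤ) ^ (j + 1) ≤ 4 ^ i := pow_le_pow_right₀ (by norm_num) h
    rw [pow_succ] at this
    cases s <;> cases t <;> simp [wv, sg] <;> constructor <;> linarith

theorem two_aux (a b c d : Bool × ℕ) (h1 : b.2 ≤ a.2) (h2 : d.2 ≤ c.2)
    (h : wv a + wv b = wv c + wv d) (h0 : wv a + wv b ≠ 0) : a = c ∧ b = d := by
  have d1 := dom a b h1 h0
  have d2 := dom c d h2 (h ▸ h0)
  rw [← h] at d2
  have p1 : (0 : ℤ) < 4 ^ a.2 := by positivity
  have p2 : (0 : ℤ) < 4 ^ c.2 := by positivity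
  have e1 : a.1 = c.1 := by
    cases ha : a.1 <;> cases hc : c.1 <;> simp [ha, hc, sg] at d1 d2 ⊢ <;> linarith [d1.1, d2.1]
  rw [← e1] at d2
  have e2 : a.2 = c.2 := by
    rcases lt_trichotomy a.2 c.2 with h | h | h
    · have : (4 : ℤ) ^ (a.2 + 1) ≤ 4 ^ c.2 := pow_le_pow_right₀ (by norm_num) h
      rw [pow_succ] at this; linarith [d1.2, d2.1]
    · exact h
    · have : (4 : ℤ) ^ (c.2 + 1) ≤ 4 ^ a.2 := pow_le_pow_right₀ (by norm_num) h
      rw [pow_succ] at this; linarith [d2.2, d1.1]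
  have e : a = c := Prod.ext e1 e2
  subst e
  exact ⟨rfl, wv_inj (by linarith)⟩

theorem two_rep (a b c d : Bool × ℕ) (h : wv a + wv b = wv c + wv d) (h0 : wv a + wv b ≠ 0) :
    (a = c ∧ b = d) ∨ (a = d ∧ b = c) := by
  rcases le_total b.2 a.2 with h1 | h1 <;> rcases le_total d.2 c.2 with h2 | h2
  · exact Or.inl (two_aux a b c d h1 h2 h h0)
  · exact Or.inr (two_aux a b d c h1 h2 (by linarith) h0)
  · exact Or.inr (two_aux b a c d h1 h2 (by linarith) (by rwa [add_comm])).symm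
  · exact Or.inl (two_aux b a d c h1 h2 (by linarith) (by rwa [add_comm])).symm

end Pool.Agent.H.MP_666b32_lc
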