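import Pool.Agent.H.MP_666b32_lc.A

set_option autoImplicit false
set_option linter.unusedSectionVars false

namespace Pool.Agent.H.MP_666b32_lc

open Polynomial Finset

def xx (i : ℕ) : ℤ := 4 ^ i
def EE (M i : ℕ) : ℤ := xx i * ∏ j ∈ (range M).erase i, (xx i ^ 2 - xx j ^ 2)
def DD (M : ℕ) : ℤ := ∏ i ∈ range M, EE M i
def FF (M i : ℕ) : ℤ := ∏ k ∈ (range M).erase i, EE M k
noncomputable def eh (M i : ℕ) : ℤ[X] :=
  C (FF M i) * X * ∏ j ∈ (range M).erase i, (X ^ 2 - C (xx j ^ 2))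

theorem xx_pos (i : ℕ) : 0 < xx i := by unfold xx; positivity

theorem xx_inj {i j : ℕ} (h : xx i = xx j) : i = j :=
  congrArg Prod.snd (wv_inj (a₁ := (false, i)) (a₂ := (false, j)) (by simpa [wv, sg, xx] using h))

theorem EE_ne (M i : ℕ) : EE M i ≠ 0 := by
  refine mul_ne_zero (xx_pos i).ne' (prod_ne_zero_iff.2 fun j hj h => ?_)
  have h1 : xx i = xx j := (pow_left_inj₀ (xx_pos i).le (xx_pos j).le two_ne_zero).1 (by linarith)
  exact (mem_erase.1 hj).1 (xx_inj h1).symm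

theorem DD_ne (M : ℕ) : DD M ≠ 0 := prod_ne_zero_iff.2 fun i _ => EE_ne M i
theorem FF_ne (M i : ℕ) : FF M i ≠ 0 := prod_ne_zero_iff.2 fun k _ => EE_ne M k

theorem sg_sq (s : Bool) : sg s ^ 2 = 1 := by cases s <;> simp [sg]

theorem eval_eh {M k : ℕ} (hk : k < M) (i : ℕ) (s : Bool) :
    (eh M i).eval (sg s * xx k) = if i = k then sg s * DD M else 0 := by
  simp only [eh, eval_mul, eval_C, eval_X, eval_prod, eval_sub, eval_pow, mul_pow, sg_sq, one_mul]
  split_ifs with h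
  · subst h
    rw [DD, ← mul_prod_erase _ _ (mem_range.2 hk), EE, FF]; ring
  · rw [prod_eq_zero (i := k) (mem_erase.2 ⟨fun e => h e.symm, mem_range.2 hk⟩) (by simp), mul_zero]

theorem natDegree_eh {M i : ℕ} (hi : i < M) : (eh M i).natDegree = 2 * M - 1 := by
  have hm : ∀ j ∈ (range M).erase i, (X ^ 2 - C (xx j ^ 2) : ℤ[X]).Monic := fun j _ =>
    monic_X_pow_sub_C _ two_ne_zero
  rw [eh, mul_assoc, natDegree_C_mul (FF_ne M i), monic_X.natDegree_mul (monic_prod_of_monic _ _ hm),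
    natDegree_prod_of_monic _ _ hm]
  simp only [natDegree_X_pow_sub_C, sum_const, card_erase_of_mem (mem_range.2 hi), card_range,
    natDegree_X, smul_eq_mul]
  omega

theorem eh_ne (M i : ℕ) : eh M i ≠ 0 :=
  mul_ne_zero (mul_ne_zero (C_ne_zero.2 (FF_ne M i)) X_ne_zero)
    (monic_prod_of_monic _ _ fun _ _ => monic_X_pow_sub_C _ two_ne_zero).ne_zero

theorem aeval_int (P : ℤ[X]) (t : ℤ) : aeval (t : ℝ) P = ((P.eval t : ℤ) : ℝ) := by
  have := aeval_algebraMap_apply ℝ t P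
  simpa using this

theorem oddpart (M : ℕ) (f : ℝ[X]) (hf : f.natDegree ≤ 2 * M) (τ : ℤ) :
    (DD M : ℝ) * (f.eval ((DD M : ℝ) * τ) - f.eval (-((DD M : ℝ) * τ))) =
      ∑ i ∈ range M, (f.eval ((DD M : ℝ) * xx i) - f.eval (-((DD M : ℝ) * xx i))) *
        (((eh M i).eval τ : ℤ) : ℝ) := by
  set G : ℝ[X] := C (DD M : ℝ) * (f.comp (C (DD M : ℝ) * X) - f.comp (-(C (DD M : ℝ) * X))) -
    ∑ i ∈ range M, C (f.eval ((DD M : ℝ) * xx i) - f.eval (-((DD M : ℝ) * xx i))) *
      (eh M i).map (algebraMap ℤ ℝ) with hG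
  have hev : ∀ t : ℤ, G.eval (t : ℝ) =
      (DD M : ℝ) * (f.eval ((DD M : ℝ) * t) - f.eval (-((DD M : ℝ) * t))) -
      ∑ i ∈ range M, (f.eval ((DD M : ℝ) * xx i) - f.eval (-((DD M : ℝ) * xx i))) *
        (((eh M i).eval t : ℤ) : ℝ) := fun t => by
    simp only [hG, eval_sub, eval_mul, eval_C, eval_comp, eval_X, eval_neg, eval_finset_sum,
      eval_map_algebraMap, aeval_int]
  have hdeg : G.natDegree ≤ 2 * M := by
    have h1 : (C (DD M : ℝ) * X).natDegree ≤ 1 := by compute_degree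
    refine (natDegree_sub_le _ _).trans (max_le ((natDegree_C_mul_le _ _).trans
      ((natDegree_sub_le _ _).trans (max_le ?_ ?_))) ?_)
    · exact natDegree_comp_le.trans (by nlinarith)
    · refine natDegree_comp_le.trans ?_
      rw [natDegree_neg]; nlinarith
    · refine natDegree_sum_le_of_forall_le _ _ fun i hi => (natDegree_C_mul_le _ _).trans
        (natDegree_map_le.trans ?_)
      rw [natDegree_eh (mem_range.1 hi)]; omega
  have h0 : G = 0 := by
    refine eq_zero_of_natDegree_lt_card_of_eval_eq_zero (ι := Option (Bool × Fin M)) G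
      (f := fun o => ((o.elim 0 fun a => sg a.1 * xx a.2 : ℤ) : ℝ)) ?_ ?_ (by simp; omega)
    · rintro (_ | ⟨s, i⟩) (_ | ⟨t, j⟩) h
      · rfl
      · have h1 : (0 : ℤ) = sg t * xx j := Int.cast_injective (α := ℝ) h
        have := xx_pos j
        cases t <;> simp [sg] at h1 <;> omega
      · have h1 : sg s * xx i = (0 : ℤ) := Int.cast_injective (α := ℝ) h
        have := xx_pos i
        cases s <;> simp [sg] at h1 <;> omega
      · have h1 : wv (s, i) = wv (t, j) := Int.cast_injective (α := ℝ) h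
        have := wv_inj h1
        simp only [Prod.mk.injEq] at this
        rw [this.1, Fin.ext this.2]
    · rintro (_ | ⟨s, k⟩)
      · rw [hev]; simp [eh]
      · rw [hev]
        simp only [Option.elim, eval_eh k.2]
        rw [sum_eq_single_of_mem k.1 (mem_range.2 k.2) fun i _ hi => by simp [hi]]
        cases s <;> simp [sg] <;> ring
  have := hev τ
  rw [h0, eval_zero] at this
  linarith

abbrev Sym (M : ℕ) : Type := Option (Bool × Option (Fin M))

variable {M : ℕ} [NeZero M]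

def Xs (M : ℕ) [NeZero M] (a : Bool × ℕ) : Sym M := some (a.1, some (Fin.ofNat M a.2))
def Ls (M : ℕ) (s : Bool) : Sym M := some (s, none)

def cc : Sym M → ℤ
  | some (s, some i) => wv (s, i)
  | _ => 0

def tt : Sym M → ℤ
  | some (s, none) => sg s
  | _ => 0

theorem sym_cases (s : Sym M) : s = none ∨ (∃ b, s = Ls M b) ∨ ∃ a : Bool × ℕ, a.2 < M ∧ s = Xs M a := by
  rcases s with _ | ⟨b, _ | i⟩
  · exact Or.inl rfl
  · exact Or.inr (Or.inl ⟨b, rfl⟩)
  · exact Or.inr (Or.inr ⟨(b, i), i.2, by simp [Xs]⟩)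

theorem cc_X {a : Bool × ℕ} (h : a.2 < M) : cc (Xs M a) = wv a := by
  simp [cc, Xs, Nat.mod_eq_of_lt h]
@[simp] theorem tt_X (a : Bool × ℕ) : tt (Xs M a) = 0 := rfl
@[simp] theorem cc_L (b : Bool) : cc (Ls M b) = 0 := rfl
@[simp] theorem tt_L (b : Bool) : tt (Ls M b) = sg b := rfl
@[simp] theorem X_ne_none (a : Bool × ℕ) : Xs M a ≠ none := by simp [Xs]
@[simp] theorem L_ne_none (b : Bool) : Ls M b ≠ none := by simp [Ls]
@[simp] theorem X_ne_L (a : Bool × ℕ) (b : Bool) : Xs M a ≠ Ls M b := by simp [Xs, Ls]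
@[simp] theorem L_ne_X (a : Bool × ℕ) (b : Bool) : Ls M b ≠ Xs M a := by simp [Xs, Ls]
@[simp] theorem L_inj (a b : Bool) : Ls M a = Ls M b ↔ a = b := by simp [Ls]
theorem X_inj {a b : Bool × ℕ} (ha : a.2 < M) (hb : b.2 < M) : Xs M a = Xs M b ↔ a = b := by
  refine ⟨fun h => wv_inj ?_, fun h => by rw [h]⟩
  rw [← cc_X ha, ← cc_X hb, h]

variable (M) (e : ℕ) (P Q : ℕ → Bool × ℕ)

noncomputable def Dt (i : ℕ) : ℤ[X] := if i = e then C 2 * X else C (wv (P i) - wv (Q i))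

noncomputable def Zp : ℤ[X] := C (DD M) + ∑ i ∈ range M, Dt e P Q i * eh M i

noncomputable def pol (s : Sym M) : ℤ[X] :=
  s.elim (Zp M e P Q) fun _ => C (DD M * cc s) + C (DD M * tt s) * X

def TH : ℕ := ((4 ^ M) ^ (2 * M + 1)) ^ M
def BB : ℕ := (2 * M + 1) * 4 ^ M * TH M * (2 * (4 ^ M) ^ 2) ^ M
def LL : ℕ := ((2 * M + 2) * BB M ^ (2 * M + 2)) ^ (2 * M + 2) + 1

structure Spec : Prop where
  e3 : 3 ≤ e
  eM : e < M
  hP : ∀ i < M, 0 < (P i).2 ∧ (P i).2 < M
  hQ : ∀ i < M, 0 < (Q i).2 ∧ (Q i).2 < M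
  ne : ∀ i, P i ≠ Q i
  p12 : P 1 = P 2
  q1 : Q 1 = (false, 2)
  q2 : Q 2 = (false, 2)

variable {M e P Q}

theorem V_some {s : Sym M} (hs : s ≠ none) (t : ℤ) :
    (pol M e P Q s).eval t = DD M * (cc s + tt s * t) := by
  rcases s with _ | s
  · exact absurd rfl hs
  · simp [pol]; ring

theorem V_none {k : ℕ} (hk : k < M) (s : Bool) : (pol M e P Q none).eval (sg s * xx k) =
    DD M * (1 + sg s * (Dt e P Q k).eval (sg s * xx k)) := by
  simp only [pol, Option.elim, Zp, eval_add, eval_C, eval_finset_sum, eval_mul, eval_eh hk]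
  rw [sum_eq_single_of_mem k (mem_range.2 hk) fun i _ hi => by simp [hi]]
  simp; ring

theorem xx_le {i : ℕ} (h : i < M) : (xx i).natAbs ≤ 4 ^ M := by
  simp only [xx, Int.natAbs_pow]
  exact Nat.pow_le_pow_right (by norm_num) h.le

theorem wv_le {a : Bool × ℕ} (h : a.2 < M) : (wv a).natAbs ≤ 4 ^ M := by
  have := xx_le h
  obtain ⟨b, i⟩ := a
  cases b <;> simpa [wv, sg, xx] using this

theorem EE_le {i : ℕ} (h : i < M) : (EE M i).natAbs ≤ (4 ^ M) ^ (2 * M + 1) := by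
  have h1 : (∏ j ∈ (range M).erase i, (xx i ^ 2 - xx j ^ 2)).natAbs ≤ ((4 ^ M) ^ 2) ^ M := by
    rw [← Int.natAbsHom_apply, map_prod]
    refine (prod_le_pow_card _ _ ((4 ^ M) ^ 2) fun j hj => ?_).trans
      (Nat.pow_le_pow_right (by positivity) (card_erase_le.trans (by simp)))
    have h2 := Nat.pow_le_pow_left (xx_le h) 2
    have h3 := Nat.pow_le_pow_left (xx_le (mem_range.1 (mem_erase.1 hj).2)) 2
    rw [← Int.natAbs_pow] at h2 h3
    have := sq_nonneg (xx i)
    have := sq_nonneg (xx j)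
    rw [Int.natAbsHom_apply]
    omega
  rw [EE, Int.natAbs_mul, pow_succ' (4 ^ M), pow_mul]
  exact Nat.mul_le_mul (xx_le h) h1

theorem prodE_le (s : Finset ℕ) (hs : s ⊆ range M) : (∏ i ∈ s, EE M i).natAbs ≤ TH M := by
  rw [← Int.natAbsHom_apply, map_prod]
  exact (prod_le_pow_card _ _ _ fun j hj => EE_le (mem_range.1 (hs hj))).trans
    (Nat.pow_le_pow_right (by positivity) ((card_le_card hs).trans (by simp)))

theorem TH_pos : 0 < TH M := by unfold TH; positivity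

theorem bd_eh (i : ℕ) : Bd (eh M i) (TH M * (2 * (4 ^ M) ^ 2) ^ M) := by
  have h1 := Bd.prod ((range M).erase i) (fun j => X ^ 2 - C (xx j ^ 2)) (2 * (4 ^ M) ^ 2)
    fun j hj => ((Bd.X.pow 2).sub (Bd.C _)).mono (by
      have h3 := Nat.pow_le_pow_left (xx_le (mem_range.1 (mem_erase.1 hj).2)) 2
      rw [← Int.natAbs_pow] at h3
      have : 0 < (4 ^ M) ^ 2 := by positivity
      omega)
  refine (((Bd.C _).mul Bd.X).mul h1).mono (Nat.mul_le_mul ?_ ?_)
  · rw [mul_one]; exact prodE_le _ (erase_subset _ _)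
  · exact Nat.pow_le_pow_right (by positivity) (card_erase_le.trans (by simp))

theorem BB_ge : 4 ^ M * TH M * (2 * (4 ^ M) ^ 2) ^ M ≤ BB M := by
  unfold BB
  gcongr
  exact Nat.le_mul_of_pos_left _ (by omega)

theorem BB_ge1 : 4 ^ M * TH M ≤ BB M :=
  le_trans (Nat.le_mul_of_pos_right _ (by positivity)) BB_ge

theorem BB_ge2 : TH M * (2 * (4 ^ M) ^ 2) ^ M ≤ BB M := by
  refine le_trans ?_ BB_ge
  gcongr
  exact Nat.le_mul_of_pos_left _ (by positivity)

theorem BB_ge3 : TH M ≤ BB M := le_trans (Nat.le_mul_of_pos_left _ (by positivity)) BB_ge1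

theorem BB_pos : 0 < BB M := lt_of_lt_of_le TH_pos BB_ge3

theorem bd_pol (h : Spec M e P Q) (s : Sym M) : Bd (pol M e P Q s) (BB M) := by
  have hD : (DD M).natAbs ≤ TH M := prodE_le _ (Subset.refl _)
  have h4 : 0 < 4 ^ M := by positivity
  rcases sym_cases s with rfl | ⟨b, rfl⟩ | ⟨a, ha, rfl⟩
  · have h1 := Bd.sum (range M) (fun i => Dt e P Q i * eh M i)
      ((2 * 4 ^ M) * (TH M * (2 * (4 ^ M) ^ 2) ^ M)) fun i hi => Bd.mul (by
        unfold Dt
        split_ifs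
        · exact ((Bd.C 2).mul Bd.X).mono (by simp; omega)
        · refine (Bd.C _).mono ?_
          have := wv_le (h.hP i (mem_range.1 hi)).2
          have := wv_le (h.hQ i (mem_range.1 hi)).2
          omega) (bd_eh i)
    refine ((Bd.C _).add h1).mono ?_
    have h2 : TH M ≤ 4 ^ M * TH M * (2 * (4 ^ M) ^ 2) ^ M :=
      le_trans (Nat.le_mul_of_pos_left _ h4) (Nat.le_mul_of_pos_right _ (by positivity))
    rw [card_range, BB]
    nlinarith
  · have : pol M e P Q (Ls M b) = C (DD M * sg b) * X := by simp [pol, Ls, cc, tt]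
    rw [this]
    refine ((Bd.C _).mul Bd.X).mono (le_trans ?_ BB_ge3)
    cases b <;> simpa [sg] using hD
  · have : pol M e P Q (Xs M a) = C (DD M * wv a) := by
      rw [← cc_X ha]; simp [pol, Xs, tt]
    rw [this]
    refine (Bd.C _).mono (le_trans ?_ BB_ge1)
    rw [Int.natAbs_mul, mul_comm]
    exact Nat.mul_le_mul (wv_le ha) hD

theorem LL_gt : (2 * M + 2) * (BB M * BB M) < LL M := by
  have h := BB_pos (M := M)
  have h1 : BB M * BB M ≤ BB M ^ (2 * M + 2) := by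
    rw [← sq]; exact Nat.pow_le_pow_right h (by omega)
  unfold LL
  exact Nat.lt_succ_of_le (le_trans (Nat.mul_le_mul_left _ h1) (Nat.le_self_pow (by omega) _))

theorem sg_xor (a b : Bool) : sg (xor a b) = sg a * sg b := by cases a <;> cases b <;> simp [sg]

theorem V_none_ne (h : Spec M e P Q) {k : ℕ} (hk : k < M) (ε : Bool) {s : Sym M} (hs : s ≠ none) :
    (pol M e P Q none).eval (sg ε * xx k) ≠ (pol M e P Q s).eval (sg ε * xx k) := by
  rw [V_none hk, V_some hs]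
  intro h0
  have h1 := mul_left_cancel₀ (DD_ne M) h0
  obtain ⟨a, ha⟩ : ∃ a, cc s + tt s * (sg ε * xx k) = wv a := by
    rcases sym_cases s with rfl | ⟨b, rfl⟩ | ⟨a, ha, rfl⟩
    · exact absurd rfl hs
    · exact ⟨(xor b ε, k), by simp [wv, sg_xor, xx, mul_assoc]⟩
    · exact ⟨a, by simp [cc_X ha]⟩
  obtain ⟨u, v, hu, hv, huv, h2⟩ : ∃ u v : Bool × ℕ, 0 < u.2 ∧ 0 < v.2 ∧ wv u + wv v ≠ 0 ∧
      sg ε * (Dt e P Q k).eval (sg ε * xx k) = -(wv u + wv v) := by
    unfold Dt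
    split_ifs with hke
    · have := h.e3
      refine ⟨(true, k), (true, k), by omega, by omega, by simp [wv, sg], ?_⟩
      cases ε <;> simp [wv, sg, xx] <;> ring
    · have hne : wv (P k) ≠ wv (Q k) := fun e => h.ne k (wv_inj e)
      cases ε
      · exact ⟨ng (P k), Q k, (h.hP k hk).1, (h.hQ k hk).1, by rw [wv_ng]; omega,
          by simp [wv_ng, sg]; ring⟩
      · exact ⟨P k, ng (Q k), (h.hP k hk).1, (h.hQ k hk).1, by rw [wv_ng]; omega,
          by simp [wv_ng, sg]; ring⟩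
  have h4 : wv u + wv v = wv (false, 0) + wv (ng a) := by
    rw [wv_ng]; simp only [wv, sg] at *; simp at *; linarith
  rcases two_rep _ _ _ _ h4 huv with h5 | h5
  · rw [h5.1] at hu; simp at hu
  · rw [h5.2] at hv; simp at hv

theorem coin (h : Spec M e P Q) {k : ℕ} (hk : k < M) (ε : Bool) {s s' : Sym M} (hne : s ≠ s')
    (hv : (pol M e P Q s).eval (sg ε * xx k) = (pol M e P Q s').eval (sg ε * xx k)) :
    ∃ b, (s = Ls M b ∧ s' = Xs M (xor b ε, k)) ∨ (s' = Ls M b ∧ s = Xs M (xor b ε, k)) := by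
  by_cases h1 : s = none
  · subst h1; exact absurd hv (V_none_ne h hk ε hne.symm)
  by_cases h2 : s' = none
  · subst h2; exact absurd hv.symm (V_none_ne h hk ε hne)
  rw [V_some h1, V_some h2] at hv
  have h3 := mul_left_cancel₀ (DD_ne M) hv
  have hw : ∀ b, sg b * (sg ε * xx k) = wv (xor b ε, k) := fun b => by
    simp [wv, sg_xor, xx, mul_assoc]
  rcases sym_cases s with rfl | ⟨b, rfl⟩ | ⟨a, ha, rfl⟩
  · exact absurd rfl h1
  · rcases sym_cases s' with rfl | ⟨b', rfl⟩ | ⟨a', ha', rfl⟩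
    · exact absurd rfl h2
    · simp only [cc_L, tt_L, zero_add, hw] at h3
      have := congrArg Prod.fst (wv_inj h3)
      exact absurd (by revert this; cases b <;> cases b' <;> cases ε <;> simp) hne
    · simp only [cc_L, tt_L, zero_add, hw, cc_X ha', tt_X, zero_mul, add_zero] at h3
      exact ⟨b, Or.inl ⟨rfl, by rw [wv_inj h3]⟩⟩
  · rcases sym_cases s' with rfl | ⟨b', rfl⟩ | ⟨a', ha', rfl⟩
    · exact absurd rfl h2
    · simp only [cc_L, tt_L, zero_add, hw, cc_X ha, tt_X, zero_mul, add_zero] at h3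
      exact ⟨b', Or.inr ⟨rfl, by rw [wv_inj h3]⟩⟩
    · simp only [cc_X ha', cc_X ha, tt_X, zero_mul, add_zero] at h3
      exact absurd (by rw [wv_inj h3]) hne

theorem val_inj (h : Spec M e P Q) :
    Function.Injective fun s : Sym M => (((pol M e P Q s).eval (LL M : ℤ) : ℤ) : ℝ) := by
  intro s s' hs
  have h1 : (pol M e P Q s).eval (LL M : ℤ) = (pol M e P Q s').eval (LL M : ℤ) :=
    Int.cast_injective (α := ℝ) hs
  have h2 : pol M e P Q s - pol M e P Q s' = 0 :=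
    ((bd_pol h s).sub (bd_pol h s')).eq_zero (L := LL M)
      (by have := LL_gt (M := M); have := BB_pos (M := M); nlinarith) (by simp [h1])
  rw [sub_eq_zero] at h2
  by_contra hne
  have h3 := h.e3
  have h4 := h.eM
  obtain ⟨b, hb⟩ := coin h (by omega : 1 < M) false hne (by rw [h2])
  obtain ⟨b', hb'⟩ := coin h (by omega : 2 < M) false hne (by rw [h2])
  have h5 : ∀ c c', Xs M (c, 1) ≠ Xs M (c', 2) := fun c c' e => by
    simpa using (X_inj (by simp; omega) (by simp; omega)).1 e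
  rcases hb with ⟨rfl, hb⟩ | ⟨rfl, hb⟩ <;> rcases hb' with ⟨h6, h7⟩ | ⟨h6, h7⟩
  · exact h5 _ _ (hb.symm.trans h7)
  · simp at h7
  · simp at h7
  · exact h5 _ _ (hb.symm.trans h7)

end Pool.Agent.H.MP_666b32_lc
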