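import Pool.Agent.H.MP_666b32_lc.B

set_option autoImplicit false
set_option linter.unusedSectionVars false

namespace Pool.Agent.H.MP_666b32_lc

open Polynomial Finset

variable {M : ℕ} [NeZero M] {e : ℕ} {P Q : ℕ → Bool × ℕ}

noncomputable def val (M : ℕ) [NeZero M] (e : ℕ) (P Q : ℕ → Bool × ℕ) (s : Sym M) : ℝ :=
  (((pol M e P Q s).eval (LL M : ℤ) : ℤ) : ℝ)

theorem card_sym : Fintype.card (Sym M) = 2 * M + 3 := by simp; ring

theorem coll (h : Spec M e P Q) (f : ℝ[X]) (hf : f.natDegree ≤ 2 * M) (last : Sym M)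
    (σ : Sym M → Sym M) (hσ : ∀ s, s ≠ last → val M e P Q (σ s) = f.eval (val M e P Q s)) (t : ℤ)
    (y1 y2 : Sym M) (h1 : y1 ≠ last) (h2 : y2 ≠ last)
    (hv : (pol M e P Q y1).eval t = (pol M e P Q y2).eval t)
    (hinj : ∀ s s', s ≠ last → s ≠ y1 → s' ≠ last → s' ≠ y1 →
      (pol M e P Q s).eval t = (pol M e P Q s').eval t → s = s') :
    (pol M e P Q (σ y1)).eval t = (pol M e P Q (σ y2)).eval t := by
  classical
  have hc : Fintype.card {s : Sym M // s ≠ last} = Fintype.card (Option (Fin (2 * M + 1))) := by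
    simp; omega
  let eq := (Fintype.equivOfCardEq hc).symm
  set A : Matrix (Option (Fin (2 * M + 1))) (Option (Fin (2 * M + 1))) ℤ[X] := fun i j =>
    j.elim (pol M e P Q (σ (eq i).1)) fun j => pol M e P Q (eq i).1 ^ (j : ℕ) with hA
  have hdet : ∀ t : ℤ, (((A.det).eval t : ℤ) : ℝ) =
      (A.map fun p => ((p.eval t : ℤ) : ℝ)).det := fun t =>
    RingHom.map_det ((Int.castRingHom ℝ).comp (evalRingHom t)) A
  have hB := BB_pos (M := M)
  have h0 : A.det = 0 := by
    refine (Bd.det A (BB M ^ (2 * M + 2)) ?_).eq_zero (L := LL M) (by simp [LL]) ?_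
    · rintro i (_ | j)
      · exact (bd_pol h _).mono (Nat.le_self_pow (by omega) _)
      · exact ((bd_pol h _).pow j).mono (Nat.pow_le_pow_right hB (by omega))
    · refine Int.cast_injective (α := ℝ) ?_
      rw [hdet, Int.cast_zero, ← Matrix.exists_mulVec_eq_zero_iff]
      refine ⟨fun j => j.elim (-1) fun j => f.coeff j, fun h => by simpa using congrFun h none, ?_⟩
      funext i
      have h3 := hσ _ (eq i).2
      rw [eval_eq_sum_range' (Nat.lt_succ_of_le hf), ← Fin.sum_univ_eq_sum_range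
        (fun j => f.coeff j * val M e P Q (eq i).1 ^ j)] at h3
      simp only [Matrix.mulVec, dotProduct, Fintype.sum_option, Matrix.map_apply, hA, Option.elim,
        eval_pow, Int.cast_pow, Pi.zero_apply]
      simp only [val] at h3
      rw [h3]
      simp [mul_comm]
  have h4 := hdet t
  rw [h0, eval_zero, Int.cast_zero, eq_comm, ← Matrix.exists_mulVec_eq_zero_iff] at h4
  obtain ⟨v, hv0, hv1⟩ := h4
  set g : ℝ[X] := ∑ j : Fin (2 * M + 1), C (v (some j)) * X ^ (j : ℕ) with hg
  have h5 : ∀ s, s ≠ last → (((pol M e P Q (σ s)).eval t : ℤ) : ℝ) * v none +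
      g.eval (((pol M e P Q s).eval t : ℤ) : ℝ) = 0 := fun s hs => by
    have := congrFun hv1 (eq.symm ⟨s, hs⟩)
    simp only [Matrix.mulVec, dotProduct, Fintype.sum_option, Matrix.map_apply, hA, Option.elim,
      eval_pow, Int.cast_pow, Pi.zero_apply, Equiv.apply_symm_apply] at this
    rw [← this, hg]
    simp only [eval_finset_sum, eval_mul, eval_C, eval_pow, eval_X]
    congr 1
    exact sum_congr rfl fun _ _ => mul_comm _ _
  by_cases hn : v none = 0
  · exfalso
    have hgd : g.natDegree ≤ 2 * M := natDegree_sum_le_of_forall_le _ _ fun j _ =>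
      (natDegree_C_mul_X_pow_le _ _).trans (by omega)
    have hg0 : g = 0 := by
      refine eq_zero_of_natDegree_lt_card_of_eval_eq_zero
        (ι := {s // s ∈ (univ.erase last).erase y1}) g
        (f := fun s => (((pol M e P Q s.1).eval t : ℤ) : ℝ)) ?_ ?_ ?_
      · rintro ⟨s, hs⟩ ⟨s', hs'⟩ h6
        simp only [mem_erase] at hs hs'
        exact Subtype.ext (hinj _ _ hs.2.1 hs.1 hs'.2.1 hs'.1 (Int.cast_injective (α := ℝ) h6))
      · rintro ⟨s, hs⟩
        simpa [hn] using h5 s (mem_erase.1 (mem_erase.1 hs).2).1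
      · rw [Fintype.card_coe, card_erase_of_mem (mem_erase.2 ⟨h1, mem_univ _⟩),
          card_erase_of_mem (mem_univ _), card_univ, card_sym]
        omega
    refine hv0 (funext fun j => ?_)
    rcases j with _ | j
    · exact hn
    · have := congrArg (fun p => p.coeff j) hg0
      simpa [hg, finset_sum_coeff, coeff_C_mul, coeff_X_pow, Fin.val_inj] using this
  · have h6 := h5 y1 h1
    have h7 := h5 y2 h2
    rw [hv] at h6
    exact Int.cast_injective (α := ℝ) (mul_right_cancel₀ hn (by linarith))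

def Esc (last : Sym M) (σ : Sym M → Sym M) : Prop :=
  ∀ T : Set (Sym M), T.Nonempty → (∀ s ∈ T, s ≠ last → σ s ∈ T) → last ∈ T

theorem Esc.two {last : Sym M} {σ : Sym M → Sym M} (h : Esc last σ) {a b : Sym M} (ha : a ≠ last)
    (hb : b ≠ last) (h1 : σ a = a ∨ σ a = b) (h2 : σ b = a ∨ σ b = b) : False := by
  have := h {a, b} ⟨a, Or.inl rfl⟩ (by
    rintro s (rfl | rfl) -
    exacts [h1, h2])
  rcases this with h | h
  exacts [ha h.symm, hb h.symm]

theorem last_none (h : Spec M e P Q) (f : ℝ[X]) (hf : f.natDegree ≤ 2 * M) (last : Sym M)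
    (σ : Sym M → Sym M) (hσ : ∀ s, s ≠ last → val M e P Q (σ s) = f.eval (val M e P Q s))
    (hi : ∀ s t, s ≠ last → t ≠ last → σ s = σ t → s = t) (he : Esc last σ) : last = none := by
  have h3 := h.e3
  have h4 := h.eM
  rcases sym_cases last with rfl | ⟨b0, rfl⟩ | ⟨⟨b0, i⟩, ha, rfl⟩
  · rfl
  · exfalso
    have key : ∀ (ε : Bool) (k : ℕ), k < M → ∃ b,
        (σ (Ls M !b0) = Ls M b ∧ σ (Xs M (xor (!b0) ε, k)) = Xs M (xor b ε, k)) ∨
        (σ (Xs M (xor (!b0) ε, k)) = Ls M b ∧ σ (Ls M !b0) = Xs M (xor b ε, k)) := by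
      intro ε k hk
      refine coin h hk ε (fun e => by simpa using hi _ _ (by simp) (by simp) e)
        (coll h f hf _ σ hσ _ _ _ (by simp) (by simp) ?_ ?_)
      · rw [V_some (by simp), V_some (by simp), cc_X (by simpa)]
        cases ε <;> cases b0 <;> simp [wv, sg, xx]
      · intro s s' a1 a2 a3 a4 a5
        by_contra hne
        obtain ⟨b, ⟨rfl, -⟩ | ⟨rfl, -⟩⟩ := coin h hk ε hne a5
        · revert a1 a2; cases b <;> cases b0 <;> simp
        · revert a3 a4; cases b <;> cases b0 <;> simp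
    have h5 : ∀ c c', Xs M (c, 1) ≠ Xs M (c', 2) := fun c c' e => by
      simpa using (X_inj (by simp; omega) (by simp; omega)).1 e
    obtain ⟨b, h6 | h6⟩ := key false 2 (by omega)
    · obtain ⟨b1, h7 | h7⟩ := key false 1 (by omega)
      · obtain ⟨b2, h8 | h8⟩ := key true 1 (by omega)
        · refine he.two (a := Xs M (xor (!b0) false, 1)) (b := Xs M (xor (!b0) true, 1))
            (by simp) (by simp) ?_ ?_
          · rw [h7.2]; cases b0 <;> cases b1 <;> simp
          · rw [h8.2]; cases b0 <;> cases b2 <;> simp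
        · simpa using h6.1.symm.trans h8.2
      · simpa using h6.1.symm.trans h7.2
    · obtain ⟨b1, h7 | h7⟩ := key false 1 (by omega)
      · simpa using h7.1.symm.trans h6.2
      · exact h5 _ _ (h7.2.symm.trans h6.2)
  · exfalso
    simp only at ha
    have hX : ∀ c c', Xs M (c, i) = Xs M (c', i) ↔ c = c' := fun c c' => by
      rw [X_inj (by simpa) (by simpa)]; simp
    have key : ∀ ε : Bool, ∃ b,
        (σ (Ls M (xor (!b0) ε)) = Ls M b ∧ σ (Xs M (!b0, i)) = Xs M (xor b ε, i)) ∨
        (σ (Xs M (!b0, i)) = Ls M b ∧ σ (Ls M (xor (!b0) ε)) = Xs M (xor b ε, i)) := by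
      intro ε
      refine coin h ha ε (fun e => by simpa using hi _ _ (by simp) (by simp [hX]) e)
        (coll h f hf _ σ hσ _ _ _ (by simp) (by simp [hX]) ?_ ?_)
      · rw [V_some (by simp), V_some (by simp), cc_X (by simpa)]
        cases ε <;> cases b0 <;> simp [wv, sg, xx]
      · intro s s' a1 a2 a3 a4 a5
        by_contra hne
        obtain ⟨b, ⟨rfl, rfl⟩ | ⟨rfl, rfl⟩⟩ := coin h ha ε hne a5
        · revert a2 a3; cases b <;> cases b0 <;> cases ε <;> simp
        · revert a1 a4; cases b <;> cases b0 <;> cases ε <;> simp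
    obtain ⟨c, h5⟩ := key false
    obtain ⟨c', h6⟩ := key true
    have fix : σ (Xs M (!b0, i)) ≠ Xs M (!b0, i) := fun e =>
      he.two (a := Xs M (!b0, i)) (b := Xs M (!b0, i)) (by simp [hX]) (by simp [hX])
        (Or.inl e) (Or.inl e)
    have cyc : ∀ b, σ (Xs M (!b0, i)) = Ls M b → σ (Ls M b) ≠ Xs M (!b0, i) := fun b e e' =>
      he.two (a := Xs M (!b0, i)) (b := Ls M b) (by simp [hX]) (by simp) (Or.inr e) (Or.inl e')
    rcases h5 with ⟨h5, h7⟩ | ⟨h5, h7⟩ <;> rcases h6 with ⟨h6, h8⟩ | ⟨h6, h8⟩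
    · refine he.two (a := Ls M (xor (!b0) false)) (b := Ls M (xor (!b0) true)) (by simp) (by simp)
        ?_ ?_
      · rw [h5]; cases b0 <;> cases c <;> simp
      · rw [h6]; cases b0 <;> cases c' <;> simp
    · simpa using h7.symm.trans h6
    · simpa using h8.symm.trans h5
    · have e : c = c' := by simpa using h5.symm.trans h6
      subst e
      refine cyc c h5 ?_
      cases b0 <;> cases c <;> simp at h7 h8 ⊢ <;> assumption

theorem tt_le (s : Sym M) : -1 ≤ tt s ∧ tt s ≤ 1 := by
  rcases sym_cases s with rfl | ⟨b, rfl⟩ | ⟨a, -, rfl⟩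
  · simp [tt]
  · cases b <;> simp [sg]
  · simp

theorem pol_deg {s : Sym M} (hs : s ≠ none) : (pol M e P Q s).natDegree ≤ 1 := by
  rcases s with _ | s
  · exact absurd rfl hs
  · simp only [pol, Option.elim]; compute_degree

theorem fwd (h : Spec M e P Q) (f : ℝ[X]) (hf : f.natDegree ≤ 2 * M) (σ : Sym M → Sym M)
    (hσ : ∀ s, s ≠ none → val M e P Q (σ s) = f.eval (val M e P Q s))
    (hi : ∀ s t, s ≠ none → t ≠ none → σ s = σ t → s = t) (he : Esc none σ) :
    ∀ k < M, k ≠ e → (σ (Xs M (false, k)) = Xs M (P k) ∧ σ (Xs M (true, k)) = Xs M (Q k)) ∨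
      (σ (Xs M (false, k)) = Xs M (ng (Q k)) ∧ σ (Xs M (true, k)) = Xs M (ng (P k))) := by
  have h3 := h.e3
  have h4 := h.eM
  have hB := BB_pos (M := M)
  set d : ℕ → ℤ[X] := fun i => pol M e P Q (σ (Xs M (false, i))) - pol M e P Q (σ (Xs M (true, i)))
    with hd
  have hH : C (DD M) * (pol M e P Q (σ (Ls M false)) - pol M e P Q (σ (Ls M true))) -
      ∑ i ∈ range M, d i * eh M i = 0 := by
    refine Bd.eq_zero (((Bd.C _).mul ((bd_pol h _).sub (bd_pol h _))).sub
      (Bd.sum _ _ _ fun i _ => ((bd_pol h _).sub (bd_pol h _)).mul ((bd_eh i).mono BB_ge2)))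
      (L := LL M) ?_ ?_
    · have h5 : (DD M).natAbs ≤ BB M := (prodE_le _ (Subset.refl _)).trans BB_ge3
      have := LL_gt (M := M)
      rw [card_range]
      nlinarith [Nat.mul_le_mul_right (BB M) h5]
    · refine Int.cast_injective (α := ℝ) ?_
      have h5 := oddpart M f hf (LL M)
      have a1 := hσ (Ls M false) (by simp)
      have a2 := hσ (Ls M true) (by simp)
      have a3 : ∀ i ∈ range M, (f.eval ((DD M : ℝ) * xx i) - f.eval (-((DD M : ℝ) * xx i))) *
          (((eh M i).eval (LL M : ℤ) : ℤ) : ℝ) =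
          (((d i * eh M i).eval (LL M : ℤ) : ℤ) : ℝ) := fun i hi => by
        have b1 := hσ (Xs M (false, i)) (by simp)
        have b2 := hσ (Xs M (true, i)) (by simp)
        simp only [val] at b1 b2
        rw [V_some (s := Xs M _) (by simp), cc_X (by simpa using hi)] at b1 b2
        simp only [hd, eval_mul, eval_sub, Int.cast_mul, Int.cast_sub, b1, b2]
        simp [wv, sg, xx]
      simp only [val] at a1 a2
      rw [V_some (s := Ls M _) (by simp)] at a1 a2
      rw [sum_congr rfl a3] at h5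
      simp only [eval_sub, eval_mul, eval_C, eval_finset_sum, Int.cast_sub, Int.cast_mul,
        Int.cast_sum, a1, a2] at h5 ⊢
      simp [sg] at h5 ⊢
      linarith
  have star : ∀ k < M, ∀ ε : Bool, (pol M e P Q (σ (Ls M false))).eval (sg ε * xx k) -
      (pol M e P Q (σ (Ls M true))).eval (sg ε * xx k) = sg ε * (d k).eval (sg ε * xx k) := by
    intro k hk ε
    have := congrArg (eval (sg ε * xx k)) hH
    simp only [eval_sub, eval_mul, eval_C, eval_finset_sum, eval_eh hk, eval_zero] at this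
    rw [sum_eq_single_of_mem k (mem_range.2 hk) fun i _ hi => by simp [hi], if_pos rfl] at this
    exact mul_left_cancel₀ (DD_ne M) (by linarith)
  obtain ⟨y0, hy0, hy⟩ : ∃ y0, y0 ≠ none ∧ σ y0 = none := by
    by_contra hc
    push Not at hc
    exact he {s | s ≠ none} ⟨Ls M false, by simp⟩ (fun s hs _ => hc s hs) rfl
  have nn : ∀ s, s ≠ none → s ≠ y0 → σ s ≠ none := fun s h1 h2 h5 =>
    h2 (hi _ _ h1 hy0 (h5.trans hy.symm))
  have hZ : ∀ k < M, k ≠ e → ∀ ε : Bool, (pol M e P Q none).eval (sg ε * xx k) =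
      DD M * (1 + sg ε * (wv (P k) - wv (Q k))) := fun k hk hke ε => by
    rw [V_none hk]; simp [Dt, hke]
  rcases sym_cases y0 with rfl | ⟨b, rfl⟩ | ⟨⟨b, k0⟩, ha, rfl⟩
  · exact absurd rfl hy0
  · have n1 : ∀ a, σ (Xs M a) ≠ none := fun a => nn _ (by simp) (by simp)
    have n2 : σ (Ls M !b) ≠ none := nn _ (by simp) (by simp)
    have hk : ∀ k < M, k ≠ e → 1 - cc (σ (Ls M !b)) =
        sg b * (tt (σ (Xs M (false, k))) - tt (σ (Xs M (true, k)))) * xx k ∧
        wv (P k) - wv (Q k) - tt (σ (Ls M !b)) * xx k =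
        sg b * (cc (σ (Xs M (false, k))) - cc (σ (Xs M (true, k)))) := by
      intro k hk hke
      have a1 := star k hk false
      have a2 := star k hk true
      simp only [hd, eval_sub, V_some (n1 _)] at a1 a2
      cases b
      · rw [Bool.not_false] at n2
        rw [hy, hZ k hk hke, V_some n2] at a1 a2
        simp only [sg, Bool.not_false] at a1 a2 ⊢
        simp only [Bool.false_eq_true, if_false, if_true] at a1 a2 ⊢
        constructor <;> refine mul_left_cancel₀ (DD_ne M) ?_ <;> linarith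
      · rw [Bool.not_true] at n2
        rw [hy, hZ k hk hke, V_some n2] at a1 a2
        simp only [sg, Bool.not_true] at a1 a2 ⊢
        simp only [Bool.false_eq_true, if_false, if_true] at a1 a2 ⊢
        constructor <;> refine mul_left_cancel₀ (DD_ne M) ?_ <;> linarith
    have c1 : cc (σ (Ls M !b)) = 1 := by
      have a1 := (hk 1 (by omega) (by omega)).1
      have a2 := (hk 2 (by omega) (by omega)).1
      have := tt_le (σ (Xs M (false, 1))); have := tt_le (σ (Xs M (true, 1)))
      have := tt_le (σ (Xs M (false, 2))); have := tt_le (σ (Xs M (true, 2)))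
      cases b <;> simp [sg, xx] at a1 a2 ⊢ <;> omega
    have c2 : tt (σ (Ls M !b)) = 0 := by
      rcases sym_cases (σ (Ls M !b)) with h5 | ⟨c, h5⟩ | ⟨a, -, h5⟩
      · exact absurd h5 n2
      · rw [h5] at c1; simp at c1
      · rw [h5]; simp
    have hk2 : ∀ k < M, k ≠ e → ∃ a a' : Bool × ℕ, σ (Xs M (false, k)) = Xs M a ∧
        σ (Xs M (true, k)) = Xs M a' ∧ wv (P k) + wv (ng (Q k)) = sg b * (wv a + wv (ng a')) := by
      intro k hkM hke
      obtain ⟨a1, a2⟩ := hk k hkM hke
      have hne : σ (Xs M (false, k)) ≠ σ (Xs M (true, k)) := fun e => by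
        simpa using (X_inj (by simpa) (by simpa)).1 (hi _ _ (by simp) (by simp) e)
      have a3 : tt (σ (Xs M (false, k))) = tt (σ (Xs M (true, k))) := by
        rw [c1, sub_self, eq_comm, mul_eq_zero, mul_eq_zero] at a1
        rcases a1 with (a1 | a1) | a1
        · cases b <;> simp [sg] at a1
        · linarith
        · exact absurd a1 (xx_pos k).ne'
      rcases sym_cases (σ (Xs M (false, k))) with h5 | ⟨c, h5⟩ | ⟨a, ha, h5⟩
      · exact absurd h5 (n1 _)
      · rcases sym_cases (σ (Xs M (true, k))) with h6 | ⟨c', h6⟩ | ⟨a', ha', h6⟩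
        · exact absurd h6 (n1 _)
        · rw [h5, h6] at a3 hne
          revert a3 hne; cases c <;> cases c' <;> simp [sg]
        · rw [h5, h6] at a3
          revert a3; cases c <;> simp [sg]
      · rcases sym_cases (σ (Xs M (true, k))) with h6 | ⟨c', h6⟩ | ⟨a', ha', h6⟩
        · exact absurd h6 (n1 _)
        · rw [h5, h6] at a3
          revert a3; cases c' <;> simp [sg]
        · refine ⟨a, a', h5, h6, ?_⟩
          rw [h5, h6, c2, cc_X ha, cc_X ha'] at a2
          simp only [wv_ng]; linarith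
    have hne : ∀ k, wv (P k) + wv (ng (Q k)) ≠ 0 := fun k e =>
      h.ne k (wv_inj (by rw [wv_ng] at e; linarith))
    have ngng : ∀ a, ng (ng a) = a := fun a => by simp [ng]
    cases b
    · intro k hkM hke
      obtain ⟨a, a', a1, a2, a3⟩ := hk2 k hkM hke
      rcases two_rep _ _ a (ng a') (by simpa [sg] using a3) (hne k) with ⟨h5, h6⟩ | ⟨h5, h6⟩
      · left; rw [a1, a2, h5, ← ngng (Q k), h6, ngng]; exact ⟨rfl, rfl⟩
      · right; rw [a1, a2, h5, h6, ngng]; exact ⟨rfl, rfl⟩
    · exfalso
      obtain ⟨a, a', a1, a2, a3⟩ := hk2 2 (by omega) (by omega)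
      rcases two_rep _ _ (ng a) a' (by simp only [wv_ng, sg] at a3 ⊢; simp at a3; linarith) (hne 2)
        with ⟨h5, h6⟩ | ⟨h5, h6⟩
      · rw [← h6, h.q2] at a2
        exact he.two (a := Xs M (true, 2)) (b := Xs M (true, 2)) (by simp) (by simp)
          (Or.inl a2) (Or.inl a2)
      · rw [← ngng a, ← h6, ngng, h.q2] at a1
        exact he.two (a := Xs M (false, 2)) (b := Xs M (false, 2)) (by simp) (by simp)
          (Or.inl a1) (Or.inl a1)
  · exfalso
    simp only at ha
    have n1 : ∀ c i, i < M → (c, i) ≠ (b, k0) → σ (Xs M (c, i)) ≠ none := fun c i hi hne =>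
      nn _ (by simp) fun e => hne ((X_inj (by simpa) (by simpa)).1 e)
    have n2 : ∀ c, σ (Ls M c) ≠ none := fun c => nn _ (by simp) (by simp)
    have d1 : (d k0 * eh M k0).natDegree ≤ 2 * M := by
      have e1 : d k0 * eh M k0 =
          C (DD M) * (pol M e P Q (σ (Ls M false)) - pol M e P Q (σ (Ls M true))) -
          ∑ i ∈ (range M).erase k0, d i * eh M i := by
        rw [← add_sum_erase _ _ (mem_range.2 ha)] at hH
        linear_combination -hH
      rw [e1]
      refine (natDegree_sub_le _ _).trans (max_le ((natDegree_C_mul_le _ _).trans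
        ((natDegree_sub_le _ _).trans (max_le ((pol_deg (n2 _)).trans (by omega))
          ((pol_deg (n2 _)).trans (by omega))))) ?_)
      refine natDegree_sum_le_of_forall_le _ _ fun i hi => natDegree_mul_le.trans ?_
      have hi1 := mem_erase.1 hi
      have hi2 := mem_range.1 hi1.2
      have : (d i).natDegree ≤ 1 := (natDegree_sub_le _ _).trans (max_le
        (pol_deg (n1 _ _ hi2 (by simp [hi1.1]))) (pol_deg (n1 _ _ hi2 (by simp [hi1.1]))))
      rw [natDegree_eh hi2]; omega
    have d2 : (d k0).natDegree ≤ 1 := by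
      by_cases h0 : d k0 = 0
      · simp [h0]
      · rw [natDegree_mul h0 (eh_ne _ _), natDegree_eh ha] at d1; omega
    have d3 : (pol M e P Q none).natDegree ≤ 1 := by
      have d4 := pol_deg (e := e) (P := P) (Q := Q) (n1 (!b) k0 ha (by simp))
      cases b
      · have : pol M e P Q none = d k0 + pol M e P Q (σ (Xs M (true, k0))) := by simp [hd, hy]
        rw [this]; exact (natDegree_add_le _ _).trans (max_le d2 d4)
      · have : pol M e P Q none = pol M e P Q (σ (Xs M (false, k0))) - d k0 := by simp [hd, hy]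
        rw [this]; exact (natDegree_sub_le _ _).trans (max_le d4 d2)
    have e1 := eq_X_add_C_of_natDegree_le_one d3
    have a1 := hZ 1 (by omega) (by omega) false
    have a2 := hZ 1 (by omega) (by omega) true
    have a3 := hZ 2 (by omega) (by omega) false
    have a4 := hZ 2 (by omega) (by omega) true
    rw [e1] at a1 a2 a3 a4
    rw [h.p12, h.q1, ← h.q2] at a1 a2
    simp [sg, xx] at a1 a2 a3 a4
    have : DD M * (wv (P 2) - wv (Q 2)) = 0 := by linarith
    exact h.ne 2 (wv_inj (sub_eq_zero.1 ((mul_eq_zero.1 this).resolve_left (DD_ne M))))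

def sig (M : ℕ) [NeZero M] (e : ℕ) (P Q : ℕ → Bool × ℕ) (c : ℕ → Bool) : Sym M → Sym M
  | none => none
  | some (s, none) => if s then Xs M (false, 0) else none
  | some (s, some i) => if (i : ℕ) = e then Ls M s else
      if c i then (if s then Xs M (Q i) else Xs M (P i))
      else (if s then Xs M (ng (P i)) else Xs M (ng (Q i)))

theorem sig_X (c : ℕ → Bool) (s : Bool) {i : ℕ} (hi : i < M) : sig M e P Q c (Xs M (s, i)) =
    if i = e then Ls M s else if c i then (if s then Xs M (Q i) else Xs M (P i))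
      else (if s then Xs M (ng (P i)) else Xs M (ng (Q i))) := by
  simp [sig, Xs, Nat.mod_eq_of_lt hi]

theorem bwd (h : Spec M e P Q) (c : ℕ → Bool) : ∃ f : ℝ[X], f.natDegree ≤ 2 * M ∧
    ∀ s, s ≠ none → val M e P Q (sig M e P Q c s) = f.eval (val M e P Q s) := by
  classical
  have h4 := h.eM
  set S : Finset (Sym M) := (univ.erase none).erase (Ls M false) with hS
  have hinj : Set.InjOn (val M e P Q) S := (val_inj h).injOn
  set f := Lagrange.interpolate S (val M e P Q) fun s => val M e P Q (sig M e P Q c s) with hf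
  have hc : S.card = 2 * M + 1 := by
    rw [hS, card_erase_of_mem (by simp), card_erase_of_mem (mem_univ _), card_univ, card_sym]
    omega
  have hd : f.natDegree ≤ 2 * M := by
    have := Lagrange.degree_interpolate_lt (fun s => val M e P Q (sig M e P Q c s)) hinj
    rw [hc] at this
    by_cases h0 : f = 0
    · simp [h0]
    · exact Nat.le_of_lt_succ ((natDegree_lt_iff_degree_lt h0).2 this)
  have hev : ∀ s, s ≠ none → s ≠ Ls M false →
      f.eval (val M e P Q s) = val M e P Q (sig M e P Q c s) := fun s h1 h2 =>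
    Lagrange.eval_interpolate_at_node _ hinj (by simp [hS, h1, h2])
  refine ⟨f, hd, fun s hs => ?_⟩
  by_cases h1 : s = Ls M false
  swap
  · exact (hev s hs h1).symm
  subst h1
  have h5 := oddpart M f hd (LL M)
  have vX : ∀ a : Bool × ℕ, a.2 < M → val M e P Q (Xs M a) = DD M * wv a := fun a ha => by
    rw [val, V_some (by simp), cc_X ha]; simp
  have vL : ∀ b, val M e P Q (Ls M b) = DD M * (sg b * LL M) := fun b => by
    rw [val, V_some (by simp)]; simp
  have a1 := hev (Ls M true) (by simp) (by simp)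
  rw [show sig M e P Q c (Ls M true) = Xs M (false, 0) from rfl, vL, vX _ (by simp; omega)] at a1
  have a3 : ∀ i ∈ range M, (f.eval ((DD M : ℝ) * xx i) - f.eval (-((DD M : ℝ) * xx i))) *
      (((eh M i).eval (LL M : ℤ) : ℤ) : ℝ) =
      DD M * (((Dt e P Q i * eh M i).eval (LL M : ℤ) : ℤ) : ℝ) := fun i hi => by
    have hi' := mem_range.1 hi
    have b1 := hev (Xs M (false, i)) (by simp) (by simp)
    have b2 := hev (Xs M (true, i)) (by simp) (by simp)
    rw [vX _ (by simpa), sig_X c _ hi'] at b1 b2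
    simp only [wv, sg] at b1 b2
    simp only [Bool.false_eq_true, if_false, if_true, one_mul, Int.cast_mul, Int.cast_neg,
      Int.cast_one, neg_mul, mul_neg] at b1 b2
    rw [xx, b1, b2, Dt]
    have p1 := (h.hP i hi').2
    have p2 := (h.hQ i hi').2
    split_ifs
    · simp [vL, sg]; ring
    · simp [vX _ p1, vX _ p2]; ring
    · rw [vX _ (by simpa [ng]), vX _ (by simpa [ng])]; simp [wv_ng]; ring
  rw [sum_congr rfl a3, ← mul_sum] at h5
  have h6 := mul_left_cancel₀ (Int.cast_ne_zero.2 (DD_ne M)) h5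
  rw [show sig M e P Q c (Ls M false) = none from rfl, vL]
  simp only [val, pol, Option.elim, Zp, eval_add, eval_C, eval_finset_sum, Int.cast_add,
    Int.cast_sum]
  simp [sg, wv] at a1 h6 ⊢
  linarith

end Pool.Agent.H.MP_666b32_lc
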