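import Pool.Agent.H.MP_666b32_lc.C

set_option autoImplicit false
set_option linter.unusedSectionVars false

namespace Pool.Agent.H.MP_666b32_lc

def nx (W : List ℕ) (v c : ℕ) : ℕ := c + (W.drop c).idxOf v
def ent (W : List ℕ) (v c : ℕ) : ℕ :=
  if nx W v c < W.length then W.length + 4 + 3 * nx W v c else 4 + v
def crs (r : ℕ) : ℕ := [4, 8, 0, 1, 7, 0, 5, 2, 0].getD r 0
def hA (W : List ℕ) (i : ℕ) : ℕ :=
  if i = 0 ∨ i = W.length + 3 then 1 else if i < W.length + 4 then i + 1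
  else if (i - (W.length + 4)) % 3 = 2 then i - 2 else i + 1
def hB (W : List ℕ) (i : ℕ) : ℕ :=
  if i = 0 ∨ i = W.length + 3 then 1 else if i < W.length + 4 then ent W (i - 3) 0
  else if (i - (W.length + 4)) % 3 = 2 then
    ent W (W.getD ((i - (W.length + 4)) / 3) 0) ((i - (W.length + 4)) / 3 + 1)
  else i - (i - (W.length + 4)) % 9 + crs ((i - (W.length + 4)) % 9)
def PP (W : List ℕ) (i : ℕ) : Bool × ℕ := if i = 1 ∨ i = 2 then (false, 3) else (false, hA W i)
def QQ (W : List ℕ) (i : ℕ) : Bool × ℕ := if i = 1 ∨ i = 2 then (false, 2) else (true, hB W i)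

variable {W : List ℕ} {m : ℕ}

theorem nx_step {v c : ℕ} (hc : c < W.length) :
    nx W v c = if W.getD c 0 = v then c else nx W v (c + 1) := by
  unfold nx
  rw [List.drop_eq_getElem_cons hc, List.idxOf_cons, List.getD_eq_getElem _ _ hc]
  by_cases h : W[c] = v
  · simp [h]
  · rw [if_neg h, beq_eq_false_iff_ne.2 h, cond_false]; omega

theorem ent1 {v c : ℕ} (hc : c < W.length) (h : W.getD c 0 = v) :
    ent W v c = W.length + 4 + 3 * c := by
  rw [ent, nx_step hc, if_pos h, if_pos hc]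

theorem ent2 {v c : ℕ} (hc : c < W.length) (h : W.getD c 0 ≠ v) : ent W v c = ent W v (c + 1) := by
  rw [ent, nx_step hc, if_neg h, ent]

theorem ent3 (v : ℕ) : ent W v W.length = 4 + v := by simp [ent, nx]

theorem ent_bd {v : ℕ} (c : ℕ) (hv : v < W.length) : 0 < ent W v c ∧ ent W v c < 4 * W.length + 4 := by
  unfold ent; split_ifs <;> omega

theorem hA_m {v : ℕ} (hv : v < W.length) : hA W (3 + v) = 4 + v := by
  unfold hA; split_ifs <;> omega
theorem hB_m {v : ℕ} (hv : v < W.length) : hB W (3 + v) = ent W v 0 := by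
  unfold hB; rw [if_neg (by omega), if_pos (by omega), Nat.add_sub_cancel_left]
theorem hA_o (c : ℕ) : hA W (W.length + 4 + 3 * c + 2) = W.length + 4 + 3 * c := by
  unfold hA; rw [if_neg (by omega), if_neg (by omega), if_pos (by omega), Nat.add_sub_cancel]
theorem hB_o (c : ℕ) : hB W (W.length + 4 + 3 * c + 2) = ent W (W.getD c 0) (c + 1) := by
  unfold hB
  rw [if_neg (by omega), if_neg (by omega), if_pos (by omega),
    show (W.length + 4 + 3 * c + 2 - (W.length + 4)) / 3 = c by omega]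
theorem hA_s (j r : ℕ) (hr : r % 3 ≠ 2) :
    hA W (W.length + 4 + 9 * j + r) = W.length + 4 + 9 * j + (r + 1) := by
  unfold hA; split_ifs <;> omega
theorem hB_s (j r : ℕ) (h9 : r < 9) (hr : r % 3 ≠ 2) :
    hB W (W.length + 4 + 9 * j + r) = W.length + 4 + 9 * j + crs r := by
  unfold hB
  rw [if_neg (by omega), if_neg (by omega), if_neg (by omega),
    show (W.length + 4 + 9 * j + r - (W.length + 4)) % 9 = r by omega, Nat.add_sub_cancel]

theorem crs_lt (r : ℕ) (h : r < 9) : crs r < 9 := by interval_cases r <;> simp [crs]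

theorem chain {v : ℕ} (hv : v < W.length) (c : ℕ) (hc : c ≤ W.length) :
    ∃ τ, hB W τ = ent W v c ∧
      (τ = 3 + v ∨ ∃ c' < c, W.getD c' 0 = v ∧ τ = W.length + 4 + 3 * c' + 2) := by
  induction c with
  | zero => exact ⟨_, hB_m hv, Or.inl rfl⟩
  | succ c ih =>
    by_cases h : W.getD c 0 = v
    · exact ⟨_, by rw [hB_o, h], Or.inr ⟨c, by omega, h, rfl⟩⟩
    · obtain ⟨τ, h1, h2⟩ := ih (by omega)
      refine ⟨τ, by rw [h1, ent2 (by omega) h], h2.imp id ?_⟩
      rintro ⟨c', a, b⟩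
      exact ⟨c', by omega, b⟩

theorem hAB_bd (hn : W.length = 3 * m) (hv : ∀ c < W.length, W.getD c 0 < W.length) (i : ℕ)
    (hi : i < 4 * W.length + 4) (h12 : ¬ (i = 1 ∨ i = 2)) :
    (0 < hA W i ∧ hA W i < 4 * W.length + 4) ∧ 0 < hB W i ∧ hB W i < 4 * W.length + 4 := by
  refine ⟨by unfold hA; split_ifs <;> omega, ?_⟩
  unfold hB
  split_ifs
  · omega
  · exact ent_bd _ (by omega)
  · exact ent_bd _ (hv _ (by omega))
  · have := crs_lt ((i - (W.length + 4)) % 9) (by omega)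
    omega

theorem spec (hn : W.length = 3 * m) (hv : ∀ c < W.length, W.getD c 0 < W.length) :
    Spec (4 * W.length + 4) (W.length + 3) (PP W) (QQ W) := by
  refine ⟨by omega, by omega, fun i hi => ?_, fun i hi => ?_, fun i => ?_, by simp [PP],
    by simp [QQ], by simp [QQ]⟩
  · unfold PP; split_ifs with h
    · simp
    · exact (hAB_bd hn hv i hi h).1
  · unfold QQ; split_ifs with h
    · simp
    · exact (hAB_bd hn hv i hi h).2
  · unfold PP QQ; split_ifs <;> simp

def NAE (W : List ℕ) (m : ℕ) (β : ℕ → Bool) : Prop :=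
  ∀ j < m, ¬ (β (W.getD (3 * j) 0) = β (W.getD (3 * j + 1) 0) ∧
    β (W.getD (3 * j + 1) 0) = β (W.getD (3 * j + 2) 0))

theorem comb_bwd (hn : W.length = 3 * m) (hv : ∀ c < W.length, W.getD c 0 < W.length)
    (σ : Sym (4 * W.length + 4) → Sym (4 * W.length + 4))
    (hi : ∀ s t, s ≠ none → t ≠ none → σ s = σ t → s = t) (he : Esc none σ)
    (ho : ∀ k < 4 * W.length + 4, k ≠ W.length + 3 →
      (σ (Xs _ (false, k)) = Xs _ (PP W k) ∧ σ (Xs _ (true, k)) = Xs _ (QQ W k)) ∨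
      (σ (Xs _ (false, k)) = Xs _ (ng (QQ W k)) ∧ σ (Xs _ (true, k)) = Xs _ (ng (PP W k)))) :
    ∃ β, NAE W m β := by
  have opt : ∀ k, ∃ s, k < 4 * W.length + 4 → k ≠ W.length + 3 → 3 ≤ k →
      σ (Xs _ (s, k)) = Xs _ (s, hB W k) ∧ σ (Xs _ (!s, k)) = Xs _ (!s, hA W k) := by
    intro k
    by_cases hk : k < 4 * W.length + 4 ∧ k ≠ W.length + 3 ∧ 3 ≤ k
    · have h12 : ¬ (k = 1 ∨ k = 2) := by omega
      rcases ho k hk.1 hk.2.1 with h | h <;> simp only [PP, QQ, if_neg h12, ng] at h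
      · exact ⟨true, fun _ _ _ => ⟨h.2, h.1⟩⟩
      · exact ⟨false, fun _ _ _ => h⟩
    · exact ⟨true, fun a b c => absurd ⟨a, b, c⟩ hk⟩
  choose sd hsd using opt
  have claim : ∀ c, c < W.length → sd (W.length + 4 + 3 * c + 2) = sd (3 + W.getD c 0) := by
    intro c
    induction c using Nat.strong_induction_on with
    | _ c ih =>
      intro hc
      have hvc := hv c hc
      obtain ⟨τ, h1, h2⟩ := chain hvc c hc.le
      have h3 : τ < 4 * W.length + 4 ∧ τ ≠ W.length + 3 ∧ 3 ≤ τ ∧ τ ≠ W.length + 4 + 3 * c + 2 ∧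
          sd τ = sd (3 + W.getD c 0) := by
        rcases h2 with rfl | ⟨c', a, b, rfl⟩
        · exact ⟨by omega, by omega, by omega, by omega, rfl⟩
        · exact ⟨by omega, by omega, by omega, by omega, by rw [ih c' a (by omega), b]⟩
      by_contra hne
      have h4 := (hsd τ h3.1 h3.2.1 h3.2.2.1).1
      have h5 := (hsd (W.length + 4 + 3 * c + 2) (by omega) (by omega) (by omega)).2
      have h6 : (!sd (W.length + 4 + 3 * c + 2)) = sd τ := by
        rw [h3.2.2.2.2]; revert hne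
        cases sd (W.length + 4 + 3 * c + 2) <;> cases sd (3 + W.getD c 0) <;> simp
      rw [h1, ent1 hc rfl] at h4
      rw [h6, hA_o] at h5
      have h7 := (X_inj (by simp; omega) (by simp; omega)).1
        (hi _ _ (by simp) (by simp) (h5.trans h4.symm))
      simp only [Prod.mk.injEq, true_and] at h7
      exact h3.2.2.2.1 h7.symm
  refine ⟨fun v => sd (3 + v), fun j hj hh => ?_⟩
  have := he {s | ∃ r < 9, s = Xs _ (!sd (3 + W.getD (3 * j) 0), W.length + 4 + 9 * j + r)}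
    ⟨_, 0, by norm_num, rfl⟩ (by
      rintro _ ⟨r, hr, rfl⟩ -
      have h1 := hsd (W.length + 4 + 9 * j + r) (by omega) (by omega) (by omega)
      by_cases h2 : r % 3 = 2
      · have h3 : W.length + 4 + 9 * j + r = W.length + 4 + 3 * (3 * j + r / 3) + 2 := by omega
        have h4 : sd (W.length + 4 + 9 * j + r) = sd (3 + W.getD (3 * j) 0) := by
          rw [h3, claim _ (by omega)]
          rcases (by omega : r / 3 = 0 ∨ r / 3 = 1 ∨ r / 3 = 2) with h | h | h <;> rw [h]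
          · rfl
          · exact hh.1.symm
          · exact (hh.1.trans hh.2).symm
        rw [h4] at h1
        refine ⟨r - 2, by omega, ?_⟩
        rw [h1.2, h3, hA_o]
        congr 2; omega
      · by_cases h3 : sd (W.length + 4 + 9 * j + r) = sd (3 + W.getD (3 * j) 0)
        · rw [h3] at h1
          exact ⟨r + 1, by omega, by rw [h1.2, hA_s _ _ h2]⟩
        · rw [Bool.eq_not_of_ne h3] at h1
          exact ⟨crs r, crs_lt r hr, by rw [h1.1, hB_s _ _ hr h2]⟩)
  obtain ⟨r, -, h⟩ := this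
  exact X_ne_none _ h.symm

def swT (r : ℕ) : ℕ := [0, 2, 0, 0, 1, 0, 1, 2, 0].getD r 0

def own (x y z : Bool) (r : ℕ) : ℕ :=
  (if x ∧ y then [0, 0, 0, 1, 1, 1, 0, 0, 0] else if x ∧ z then [0, 0, 0, 2, 2, 2, 2, 2, 2]
   else if y ∧ z then [1, 1, 1, 1, 1, 1, 2, 2, 2] else if x then [0, 0, 0, 0, 0, 0, 0, 0, 0]
   else if y then [1, 1, 1, 1, 1, 1, 1, 1, 1] else [2, 2, 2, 2, 2, 2, 2, 2, 2]).getD r 0

def stp (x y z : Bool) (r : ℕ) : ℕ :=
  (if x ∧ y then [0, 1, 5, 0, 1, 2, 3, 4, 2] else if x ∧ z then [0, 1, 2, 2, 3, 1, 0, 4, 5]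
   else if y ∧ z then [3, 1, 2, 0, 4, 5, 0, 1, 2] else if x then [0, 1, 8, 5, 6, 4, 3, 7, 2]
   else if y then [6, 1, 5, 0, 7, 8, 3, 4, 2] else [5, 3, 4, 2, 6, 1, 0, 7, 8]).getD r 0

theorem tab1 : ∀ x y z : Bool, ¬ (x = y ∧ y = z) → ∀ r < 9, r % 3 ≠ 0 → ∃ r' < 9, r' % 3 ≠ 2 ∧
    (if [x, y, z].getD (swT r') false then r' + 1 else crs r') = r ∧
    own x y z r' = own x y z r ∧ stp x y z r' < stp x y z r := by decide

theorem tab2 : ∀ x y z : Bool, ¬ (x = y ∧ y = z) → ∀ p < 3,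
    if [x, y, z].getD p false then own x y z (3 * p) = p ∧ own x y z (3 * p + 2) = p
    else own x y z (3 * p + 2) = own x y z (3 * p) ∧ stp x y z (3 * p + 2) < stp x y z (3 * p) := by
  decide

theorem tab3 : ∀ x y z : Bool, ∀ r < 9, stp x y z r < 9 := by decide

theorem tab4 : ∀ r < 9, swT r < 3 := by decide

def ch (W : List ℕ) (β : ℕ → Bool) (i : ℕ) : Bool :=
  if i = 1 then true else if i = 2 then false else if i < W.length + 4 then β (i - 3)
  else if (i - (W.length + 4)) % 3 = 2 then β (W.getD ((i - (W.length + 4)) / 3) 0)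
  else !β (W.getD (3 * ((i - (W.length + 4)) / 9) + swT ((i - (W.length + 4)) % 9)) 0)

def rot (W : List ℕ) (β : ℕ → Bool) (s : Bool) (c : ℕ) : Bool := β (W.getD c 0) == s

def rkC (W : List ℕ) (β : ℕ → Bool) (s : Bool) (j r : ℕ) : ℕ × ℕ :=
  (W.getD (3 * j + own (rot W β s (3 * j)) (rot W β s (3 * j + 1)) (rot W β s (3 * j + 2)) r) 0 + 1,
    1 + 9 * j + stp (rot W β s (3 * j)) (rot W β s (3 * j + 1)) (rot W β s (3 * j + 2)) r)

def rkX (W : List ℕ) (β : ℕ → Bool) (s : Bool) (i : ℕ) : ℕ × ℕ × ℕ :=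
  if i = 2 then (0, 0, if s then 3 else 2) else
  ((if s then 0 else 1), if i < 2 then (0, i) else if i < W.length + 4 then (i - 2, 0)
    else rkC W β s ((i - (W.length + 4)) / 9) ((i - (W.length + 4)) % 9))

def rk0 (W : List ℕ) (β : ℕ → Bool) : Sym (4 * W.length + 4) → ℕ × ℕ × ℕ
  | none => (2, 0, 0)
  | some (s, none) => (if s then 0 else 1, W.length + 2, 0)
  | some (s, some i) => rkX W β s i

def rk (W : List ℕ) (β : ℕ → Bool) (s : Sym (4 * W.length + 4)) : ℕ ×ₗ ℕ ×ₗ ℕ :=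
  toLex ((rk0 W β s).1, toLex (rk0 W β s).2)

def L3 (a b : ℕ × ℕ × ℕ) : Prop :=
  a.1 < b.1 ∨ a.1 = b.1 ∧ (a.2.1 < b.2.1 ∨ a.2.1 = b.2.1 ∧ a.2.2 < b.2.2)

theorem rk_lt {β : ℕ → Bool} {s t : Sym (4 * W.length + 4)} (h : L3 (rk0 W β s) (rk0 W β t)) :
    rk W β s < rk W β t := by
  simpa [rk, Prod.Lex.toLex_lt_toLex, Prod.Lex.lt_iff, L3] using h

theorem rk_X (β : ℕ → Bool) (s : Bool) {i : ℕ} (hi : i < 4 * W.length + 4) :
    rk0 W β (Xs _ (s, i)) = rkX W β s i := by simp [rk0, Xs, Nat.mod_eq_of_lt hi]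

theorem rk_m (β : ℕ → Bool) (s : Bool) {v : ℕ} (hv : v ≤ W.length) :
    rkX W β s (3 + v) = (if s then 0 else 1, v + 1, 0) := by
  unfold rkX
  rw [if_neg (by omega : ¬ 3 + v = 2), if_neg (by omega : ¬ 3 + v < 2),
    if_pos (by omega : 3 + v < W.length + 4), show 3 + v - 2 = v + 1 by omega]

theorem rk_c (β : ℕ → Bool) (s : Bool) (j r : ℕ) (hr : r < 9) :
    rkX W β s (W.length + 4 + 9 * j + r) = (if s then 0 else 1, rkC W β s j r) := by
  unfold rkX
  rw [if_neg (by omega : ¬ W.length + 4 + 9 * j + r = 2),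
    if_neg (by omega : ¬ W.length + 4 + 9 * j + r < 2),
    if_neg (by omega : ¬ W.length + 4 + 9 * j + r < W.length + 4),
    show (W.length + 4 + 9 * j + r - (W.length + 4)) / 9 = j by omega,
    show (W.length + 4 + 9 * j + r - (W.length + 4)) % 9 = r by omega]

theorem sig_n (β : ℕ → Bool) (s : Bool) {i : ℕ} (hi : i < 4 * W.length + 4)
    (he : i ≠ W.length + 3) (h12 : ¬ (i = 1 ∨ i = 2)) :
    sig (4 * W.length + 4) (W.length + 3) (PP W) (QQ W) (ch W β) (Xs _ (s, i)) =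
      Xs _ (s, if ch W β i = s then hB W i else hA W i) := by
  rw [sig_X _ _ hi, if_neg he]
  cases s <;> cases ch W β i <;> simp [PP, QQ, h12, ng]

theorem rot_get (β : ℕ → Bool) (s : Bool) (j p : ℕ) (hp : p < 3) :
    [rot W β s (3 * j), rot W β s (3 * j + 1), rot W β s (3 * j + 2)].getD p false =
      rot W β s (3 * j + p) := by
  interval_cases p <;> rfl

theorem comb_fwd (hn : W.length = 3 * m) (hv : ∀ c < W.length, W.getD c 0 < W.length)
    (hd : ∀ c c', c' < c → c < W.length → W.getD c' 0 = W.getD c 0 → c' / 3 < c / 3)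
    (β : ℕ → Bool) (hβ : NAE W m β) (s : Sym (4 * W.length + 4)) (hs : s ≠ Xs _ (true, 0)) :
    ∃ t, t ≠ none ∧ sig (4 * W.length + 4) (W.length + 3) (PP W) (QQ W) (ch W β) t = s ∧ rk W β t < rk W β s := by
  have hN : ∀ (b : Bool) j, j < m → ¬ (rot W β b (3 * j) = rot W β b (3 * j + 1) ∧
      rot W β b (3 * j + 1) = rot W β b (3 * j + 2)) := fun b j hj h => hβ j hj (by
    revert h; unfold rot
    cases β (W.getD (3 * j) 0) <;> cases β (W.getD (3 * j + 1) 0) <;>
      cases β (W.getD (3 * j + 2) 0) <;> cases b <;> simp)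
  have chm : ∀ v, v < W.length → ch W β (3 + v) = β v := fun v h => by
    unfold ch
    rw [if_neg (by omega), if_neg (by omega), if_pos (by omega), Nat.add_sub_cancel_left]
  have cho : ∀ c, ch W β (W.length + 4 + 3 * c + 2) = β (W.getD c 0) := fun c => by
    unfold ch
    rw [if_neg (by omega), if_neg (by omega), if_neg (by omega), if_pos (by omega),
      show (W.length + 4 + 3 * c + 2 - (W.length + 4)) / 3 = c by omega]
  have chs : ∀ j r, r < 9 → r % 3 ≠ 2 →
      ch W β (W.length + 4 + 9 * j + r) = !β (W.getD (3 * j + swT r) 0) := fun j r h1 h2 => by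
    unfold ch
    rw [if_neg (by omega), if_neg (by omega), if_neg (by omega), if_neg (by omega),
      show (W.length + 4 + 9 * j + r - (W.length + 4)) / 9 = j by omega,
      show (W.length + 4 + 9 * j + r - (W.length + 4)) % 9 = r by omega]
  have rko : ∀ (b : Bool) c, c < W.length → β (W.getD c 0) = b → ∀ l, l = 0 ∨ l = 2 → ∃ x,
      rkX W β b (W.length + 4 + 3 * c + l) = (if b then 0 else 1, W.getD c 0 + 1, x) ∧
        1 + 9 * (c / 3) ≤ x ∧ x < 1 + 9 * (c / 3) + 9 := by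
    intro b c hc h l hl
    have h1 := tab2 _ _ _ (hN b (c / 3) (by omega)) (c % 3) (by omega)
    rw [rot_get β b _ _ (by omega), Nat.div_add_mod, if_pos (by simp [rot, ← h])] at h1
    rw [show W.length + 4 + 3 * c + l = W.length + 4 + 9 * (c / 3) + (3 * (c % 3) + l) by omega,
      rk_c _ _ _ _ (by omega)]
    refine ⟨(rkC W β b (c / 3) (3 * (c % 3) + l)).2, ?_, Nat.le_add_right _ _,
      Nat.add_lt_add_left (tab3 _ _ _ (3 * (c % 3) + l) (by omega)) _⟩
    rcases hl with rfl | rfl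
    · simp only [rkC, add_zero, h1.1, Nat.div_add_mod]
    · simp only [rkC, h1.2, Nat.div_add_mod]
  have viaB : ∀ (b : Bool) v c, v < W.length → c ≤ W.length → β v = b → ∃ τ,
      τ < 4 * W.length + 4 ∧
      sig (4 * W.length + 4) (W.length + 3) (PP W) (QQ W) (ch W β) (Xs _ (b, τ)) = Xs _ (b, ent W v c) ∧
      ∃ x, rkX W β b τ = (if b then 0 else 1, v + 1, x) ∧
        (x = 0 ∨ ∃ c' < c, W.getD c' 0 = v ∧ x < 1 + 9 * (c' / 3) + 9) := by
    intro b v c h1 h2 h3
    obtain ⟨τ, h4, rfl | ⟨c', a1, a2, rfl⟩⟩ := chain h1 c h2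
    · refine ⟨_, by omega, ?_, 0, rk_m _ _ h1.le, Or.inl rfl⟩
      rw [sig_n β b (by omega) (by omega) (by omega), chm v h1, if_pos h3, h4]
    · obtain ⟨x, h5, -, h6⟩ := rko b c' (by omega) (a2 ▸ h3) 2 (Or.inr rfl)
      refine ⟨_, by omega, ?_, x, a2 ▸ h5, Or.inr ⟨c', a1, a2, h6⟩⟩
      rw [sig_n β b (by omega) (by omega) (by omega), cho, a2, if_pos h3, h4]
  rcases sym_cases s with rfl | ⟨b, rfl⟩ | ⟨⟨b, i⟩, hi, rfl⟩
  · exact ⟨Ls _ false, by simp, rfl, rk_lt (by simp [rk0, Ls, L3])⟩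
  · refine ⟨Xs _ (b, 3 + W.length), by simp, by rw [sig_X _ _ (by omega), if_pos (by omega)],
      rk_lt ?_⟩
    rw [rk_X _ _ (by omega), rk_m _ _ le_rfl]
    simp [rk0, Ls, L3]
  simp only at hi
  have goal : ∀ b' τ, τ < 4 * W.length + 4 →
      sig (4 * W.length + 4) (W.length + 3) (PP W) (QQ W) (ch W β) (Xs _ (b', τ)) = Xs _ (b, i) →
      L3 (rkX W β b' τ) (rkX W β b i) → ∃ t, t ≠ none ∧
        sig (4 * W.length + 4) (W.length + 3) (PP W) (QQ W) (ch W β) t = Xs _ (b, i) ∧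
        rk W β t < rk W β (Xs _ (b, i)) := fun b' τ h1 h2 h3 =>
    ⟨_, by simp, h2, rk_lt (by rwa [rk_X _ _ h1, rk_X _ _ hi])⟩
  rcases (by omega : i = 0 ∨ i = 1 ∨ i = 2 ∨ i = 3 ∨ (4 ≤ i ∧ i < W.length + 4) ∨
    W.length + 4 ≤ i) with rfl | rfl | rfl | rfl | h | h
  · cases b
    · refine ⟨Ls _ true, by simp, rfl, rk_lt ?_⟩
      rw [rk_X _ _ hi]
      simp [rk0, Ls, L3, rkX]
    · exact absurd rfl hs
  · refine goal b 0 (by omega) ?_ (by simp [rkX, L3])
    rw [sig_n β b (by omega) (by omega) (by omega)]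
    simp [hA, hB]
  · cases b
    · refine goal true 1 (by omega) ?_ (by simp [rkX, L3])
      rw [sig_X _ _ (by omega)]; simp [ch, QQ]
    · refine goal false 2 (by omega) ?_ (by simp [rkX, L3])
      rw [sig_X _ _ (by omega)]; simp [ch, QQ, ng]
  · cases b
    · refine goal false 1 (by omega) ?_ (by simp [rkX, L3])
      rw [sig_X _ _ (by omega)]; simp [ch, PP]
    · refine goal true 2 (by omega) ?_ (by simp [rkX, L3])
      rw [sig_X _ _ (by omega)]; simp [ch, PP, ng]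
  · obtain ⟨v, rfl⟩ : ∃ v, i = 3 + (v + 1) := ⟨i - 4, by omega⟩
    have h1 : v < W.length := by omega
    by_cases h2 : β v = b
    · obtain ⟨τ, a1, a2, x, a3, -⟩ := viaB b v W.length h1 le_rfl h2
      refine goal b τ a1 (by rw [a2, ent3]; congr 2; omega) ?_
      rw [a3, rk_m _ _ (by omega)]; simp [L3]
    · refine goal b (3 + v) (by omega) ?_ ?_
      · rw [sig_n β b (by omega) (by omega) (by omega), chm v h1, if_neg h2, hA_m h1]
        congr 2; omega
      · rw [rk_m _ _ (by omega), rk_m _ _ (by omega)]; simp [L3]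
  · by_cases h0 : (i - (W.length + 4)) % 3 = 0
    · obtain ⟨c, rfl⟩ : ∃ c, i = W.length + 4 + 3 * c := ⟨(i - (W.length + 4)) / 3, by omega⟩
      have hc : c < W.length := by omega
      by_cases h2 : β (W.getD c 0) = b
      · obtain ⟨τ, a1, a2, x, a3, a4⟩ := viaB b _ c (hv c hc) hc.le h2
        obtain ⟨y, a5, a6, -⟩ := rko b c hc h2 0 (Or.inl rfl)
        refine goal b τ a1 (by rw [a2, ent1 hc rfl]) ?_
        rw [add_zero] at a5
        rw [a3, a5]
        refine Or.inr ⟨rfl, Or.inr ⟨rfl, ?_⟩⟩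
        rcases a4 with rfl | ⟨c', a7, a8, a9⟩
        · simp only; omega
        · have := hd c c' a7 hc a8
          simp only; omega
      · have h1 := tab2 _ _ _ (hN b (c / 3) (by omega)) (c % 3) (by omega)
        rw [rot_get β b _ _ (by omega), Nat.div_add_mod, if_neg (by simpa [rot] using h2)] at h1
        refine goal b (W.length + 4 + 3 * c + 2) (by omega) ?_ ?_
        · rw [sig_n β b (by omega) (by omega) (by omega), cho, if_neg h2, hA_o]
        · rw [show W.length + 4 + 3 * c + 2 = W.length + 4 + 9 * (c / 3) + (3 * (c % 3) + 2) by omega,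
            show W.length + 4 + 3 * c = W.length + 4 + 9 * (c / 3) + (3 * (c % 3)) by omega,
            rk_c _ _ _ _ (by omega), rk_c _ _ _ _ (by omega)]
          refine Or.inr ⟨rfl, Or.inr ⟨by simp only [rkC, h1.1], ?_⟩⟩
          simp only [rkC]; omega
    · obtain ⟨j, r, hr, rfl⟩ : ∃ j r, r < 9 ∧ i = W.length + 4 + 9 * j + r :=
        ⟨(i - (W.length + 4)) / 9, (i - (W.length + 4)) % 9, by omega, by omega⟩
      obtain ⟨r', a1, a2, a3, a4, a5⟩ := tab1 _ _ _ (hN b j (by omega)) r hr (by omega)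
      rw [rot_get β b _ _ (tab4 r' a1)] at a3
      refine goal b (W.length + 4 + 9 * j + r') (by omega) ?_ ?_
      · rw [sig_n β b (by omega) (by omega) (by omega), chs j r' a1 a2, hA_s _ _ a2,
          hB_s _ _ a1 a2, ← a3]
        unfold rot
        cases β (W.getD (3 * j + swT r') 0) <;> cases b <;> simp
      · rw [rk_c _ _ _ _ a1, rk_c _ _ _ _ hr]
        refine Or.inr ⟨rfl, Or.inr ⟨by simp only [rkC, a4], ?_⟩⟩
        simp only [rkC]; omega

end Pool.Agent.H.MP_666b32_lc
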